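import Pool.Agent.FHP.RelL

/-!
# SRX, module Shape: diagrams of the same shape, definitions (helper62)

A smoothing of the crossing `i` is given by a Boolean: `true` respects the orientation.
-/

set_option autoImplicit false

open Pool.Agent.EQT Pool.Agent.SPT Pool.Agent.FHP

namespace Pool.Agent.SRX

variable {n : ℕ}

/-- `τ` cuts the twist regions: it respects the orientation at the crossing `i` if and only if `i` is
not interlaced with another crossing of its class; at a crossing which is alone in its class (and
interlaced with some crossing) both smoothings are allowed. -/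
def Cuts (I : Fin n → Fin n → Prop) (τ : Fin n → Bool) : Prop :=
  ∀ i, τ i = cutAll I i ∨ ((∃ j, I i j) ∧ ∀ j, Twins I i j → j = i)

/-- The state which cuts the crossings in `U` and no other crossing. -/
def cutOn (τ : Fin n → Bool) (U : Finset (Fin n)) : Fin n → Bool :=
  fun c => if c ∈ U then τ c else !τ c

open Classical in
/-- The twist number of the class of `i` with the sign of the cut: the number of the crossings of the
class whose cut is the smoothing of type A, minus the number of the others. -/
noncomputable def twistBy (I : Fin n → Fin n → Prop) (e τ : Fin n → Bool) (i : Fin n) : ℤ :=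
  ∑ j with Twins I i j, if τ j = e j then 1 else -1

/-- `d` has the entries `-1`, `0`, `1`, it is zero outside of `S`, and `∑ d i * a i` is less than `N` in
absolute value. -/
def ShortFor (S : Finset (Fin n)) (a : Fin n → ℤ) (N : ℕ) (d : Fin n → ℤ) : Prop :=
  (∀ i, d i = -1 ∨ d i = 0 ∨ d i = 1) ∧ (∀ i, i ∉ S → d i = 0) ∧ |∑ i ∈ S, d i * a i| < N

end Pool.Agent.SRX
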