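import Mathlib
import Pool.Agent.SPT.LinB

/-!
# SRX, module Cluster: the cluster lemma with the coefficients of the quotient (helper62)
-/

set_option autoImplicit false
set_option linter.unusedSectionVars false

open LaurentPolynomial

namespace Pool.Agent.SRX

open Pool.Agent.SPT.Lin

section

variable {K : Type} [CommRing K]

theorem coeff_C_mul (a : K) (f : K[T;T⁻¹]) (n : ℤ) : (C a * f).coeff n = a * f.coeff n := by
  rw [← smul_eq_C_mul]
  rfl

/-- **Splitting**: the two quotients are the parts of `f` below and above an exponent -/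
theorem split' (D f S₁ S₂ : K[T;T⁻¹]) (s a b : ℤ) (B : ℕ) (hB : f.coeff.support.card ≤ B)
    (hs : 0 ≤ s) (hD : Sup (fun n => -s ≤ n ∧ n ≤ s) D) (h : D * f = S₁ + S₂)
    (h₁ : Sup (fun n => n ≤ a) S₁) (h₂ : Sup (fun n => b ≤ n) S₂)
    (hab : a + (B + 1) * (2 * s + 1) < b) :
    ∃ t : ℤ, D * cutL (fun n => n < t) f = S₁ ∧ D * cutL (fun n => ¬ n < t) f = S₂ := by
  classical
  -- the window
  obtain ⟨j, hj, hjw⟩ : ∃ j : ℕ, j ≤ B ∧ ∀ n : ℤ, a + 1 + j * (2 * s + 1) ≤ n →
      n < a + 1 + (j + 1) * (2 * s + 1) → f.coeff n = 0 := by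
    by_contra hno
    push Not at hno
    choose! w hw1 hw2 hw3 using hno
    have hinj : ∀ i ∈ Finset.range (B + 1), ∀ j ∈ Finset.range (B + 1), w i = w j → i = j := by
      have key : ∀ i j : ℕ, i ≤ B → j ≤ B → i < j → w i ≠ w j := by
        intro i j hi hj hij he
        have h1 := hw2 i hi
        have h2 := hw1 j hj
        have h3 : ((i : ℤ) + 1) * (2 * s + 1) ≤ j * (2 * s + 1) := by
          refine mul_le_mul_of_nonneg_right ?_ (by omega)
          exact_mod_cast hij
        rw [he] at h1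
        omega
      intro i hi j hj he
      rw [Finset.mem_range] at hi hj
      rcases lt_trichotomy i j with h1 | h1 | h1
      · exact absurd he (key i j (by omega) (by omega) h1)
      · exact h1
      · exact absurd he.symm (key j i (by omega) (by omega) h1)
    have h1 : ((Finset.range (B + 1)).image w).card = B + 1 := by
      rw [Finset.card_image_of_injOn fun i hi j hj he => hinj i hi j hj he, Finset.card_range]
    have h2 : (Finset.range (B + 1)).image w ⊆ f.coeff.support := by
      intro n hn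
      obtain ⟨i, hi, rfl⟩ := Finset.mem_image.1 hn
      rw [Finset.mem_range] at hi
      rw [Finsupp.mem_support_iff]
      exact hw3 i (by omega)
    have h3 := Finset.card_le_card h2
    omega
  obtain ⟨t, ht⟩ : ∃ t : ℤ, t = a + 1 + j * (2 * s + 1) + s := ⟨_, rfl⟩
  have hj1 : (j : ℤ) * (2 * s + 1) + (2 * s + 1) = (j + 1) * (2 * s + 1) := by ring
  have hj2 : ((j : ℤ) + 1) * (2 * s + 1) ≤ (B + 1) * (2 * s + 1) := by
    refine mul_le_mul_of_nonneg_right ?_ (by omega)
    have : (j : ℤ) ≤ B := by exact_mod_cast hj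
    omega
  have hj3 : 0 ≤ (j : ℤ) * (2 * s + 1) := mul_nonneg (by positivity) (by omega)
  have hwin : ∀ n : ℤ, t - s ≤ n → n ≤ t + s → f.coeff n = 0 := by
    intro n hn1 hn2
    exact hjw n (by omega) (by omega)
  refine ⟨t, ?_⟩
  obtain ⟨f₁, hf₁⟩ : ∃ f₁, f₁ = cutL (fun n => n < t) f := ⟨_, rfl⟩
  obtain ⟨f₂, hf₂⟩ : ∃ f₂, f₂ = cutL (fun n => ¬ n < t) f := ⟨_, rfl⟩
  rw [← hf₁, ← hf₂]
  have hf : f₁ + f₂ = f := by
    rw [hf₁, hf₂]
    exact cutL_add _ _
  have hS₁ : Sup (fun n => n < t - s) f₁ := by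
    intro n hn
    rw [hf₁, cutL_coeff] at hn
    by_cases hnt : n < t
    · rw [if_pos hnt] at hn
      by_contra h3
      exact hn (hwin n (by omega) (by omega))
    · rw [if_neg hnt] at hn
      exact absurd rfl hn
  have hS₂ : Sup (fun n => t + s < n) f₂ := by
    intro n hn
    rw [hf₂, cutL_coeff] at hn
    by_cases hnt : n < t
    · rw [if_neg (not_not.2 hnt)] at hn
      exact absurd rfl hn
    · rw [if_pos hnt] at hn
      by_contra h3
      exact hn (hwin n (by omega) (by omega))
  have h3 : Sup (fun n => n < t) (D * f₁) := Sup.mul hD hS₁ fun a b ha hb => by omega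
  have h4 : Sup (fun n => t < n) (D * f₂) := Sup.mul hD hS₂ fun a b ha hb => by omega
  have h5 : D * f₁ - S₁ = S₂ - D * f₂ := by
    have h6 : D * f₁ + D * f₂ = S₁ + S₂ := by rw [← mul_add, hf, h]
    linear_combination h6
  have h6 : Sup (fun n => n < t) (D * f₁ - S₁) := h3.sub (h₁.mono fun n hn => by omega)
  have h7 : Sup (fun n => t ≤ n) (D * f₁ - S₁) := by
    rw [h5]
    exact (h₂.mono fun n hn => by omega).sub (h4.mono fun n hn => by omega)
  have h8 : D * f₁ - S₁ = 0 := Sup.eq_zero h6 h7 fun n h1 h2 => by omega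
  refine ⟨sub_eq_zero.1 h8, ?_⟩
  rw [h8] at h5
  exact (sub_eq_zero.1 h5.symm).symm

/-- **Clusters**, with the coefficients of the quotient -/
theorem cluster' {ι : Type} [DecidableEq ι] (D : K[T;T⁻¹]) (s : ℤ) (hs : 0 ≤ s)
    (hD : Sup (fun n => -s ≤ n ∧ n ≤ s) D) (B : ℕ) (G : ι → K[T;T⁻¹]) (e : ι → ℤ)
    (ψ : ι → K) (N : ℤ) (hN : (B + 1) * (2 * s + 1) + 2 * s ≤ N) (k : ℕ) :
    ∀ (I : Finset ι), I.card ≤ k →
      (∀ i ∈ I, Sup (fun n => e i - s ≤ n ∧ n ≤ e i + s) (G i)) →
      ∀ f : K[T;T⁻¹], f.coeff.support.card ≤ B → D * f = ∑ i ∈ I, G i →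
      (∀ i ∈ I, ∀ j ∈ I, |e i - e j| ≤ N → ψ i = ψ j) →
      ∃ t : K[T;T⁻¹], ∑ i ∈ I, C (ψ i) * G i = D * t ∧
        ∀ n, t.coeff n = 0 ∨ ∃ i ∈ I, t.coeff n = ψ i * f.coeff n := by
  classical
  induction k with
  | zero =>
    intro I hI _ _ _ _ _
    rw [Nat.le_zero, Finset.card_eq_zero] at hI
    exact ⟨0, by rw [hI, Finset.sum_empty, mul_zero], fun n => Or.inl rfl⟩
  | succ k ih =>
    intro I hI hG f hf hDf hψ
    have hN0 : 0 ≤ N := by
      have : 0 ≤ ((B : ℤ) + 1) * (2 * s + 1) := by positivity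
      omega
    by_cases hne : I = ∅
    · exact ⟨0, by rw [hne, Finset.sum_empty, mul_zero], fun n => Or.inl rfl⟩
    obtain ⟨i₀, hi₀, hmin⟩ := Finset.exists_min_image I e (Finset.nonempty_iff_ne_empty.2 hne)
    by_cases hconst : ∀ i ∈ I, ψ i = ψ i₀
    · refine ⟨C (ψ i₀) * f, ?_, fun n => Or.inr ⟨i₀, hi₀, ?_⟩⟩
      · rw [Finset.sum_congr rfl fun i hi => by rw [hconst i hi], ← Finset.mul_sum, ← hDf]
        ring
      · exact coeff_C_mul _ _ _
    · push Not at hconst
      obtain ⟨i₁, hi₁, hne₁⟩ := hconst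
      obtain ⟨j₀, hj₀, hjmin⟩ := Finset.exists_min_image (I.filter fun i => ψ i ≠ ψ i₀) e
        ⟨i₁, Finset.mem_filter.2 ⟨hi₁, hne₁⟩⟩
      rw [Finset.mem_filter] at hj₀
      have hψ₁ : ∀ i ∈ I, e i < e j₀ → ψ i = ψ i₀ := by
        intro i hi hlt
        by_contra h
        have := hjmin i (Finset.mem_filter.2 ⟨hi, h⟩)
        omega
      have hfar : ∀ i ∈ I, e i < e j₀ → e i + N < e j₀ := by
        intro i hi hlt
        by_contra h
        apply hj₀.2
        rw [← hψ₁ i hi hlt]
        refine hψ j₀ hj₀.1 i hi ?_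
        rw [abs_le]
        constructor <;> omega
      have hlt₀ : e i₀ < e j₀ := by
        rcases lt_or_eq_of_le (hmin j₀ hj₀.1) with h | h
        · exact h
        · exfalso
          apply hj₀.2
          refine hψ j₀ hj₀.1 i₀ hi₀ ?_
          rw [h, sub_self, abs_zero]
          exact hN0
      have hsplit : ∀ g : ι → K[T;T⁻¹], ∑ i ∈ I, g i =
          ∑ i ∈ I.filter (fun i => e i < e j₀), g i +
            ∑ i ∈ I.filter (fun i => ¬ e i < e j₀), g i :=
        fun g => (Finset.sum_filter_add_sum_filter_not I _ g).symm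
      obtain ⟨τ, h1, h2⟩ := split' D f
        (∑ i ∈ I.filter (fun i => e i < e j₀), G i)
        (∑ i ∈ I.filter (fun i => ¬ e i < e j₀), G i) s (e j₀ - N - 1 + s) (e j₀ - s) B hf hs hD
        (by rw [hDf, hsplit]) (by
          refine Sup.sum _ _ fun i hi => ?_
          rw [Finset.mem_filter] at hi
          refine (hG i hi.1).mono fun n hn => ?_
          have := hfar i hi.1 hi.2
          omega) (by
          refine Sup.sum _ _ fun i hi => ?_
          rw [Finset.mem_filter] at hi
          refine (hG i hi.1).mono fun n hn => ?_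
          omega) (by omega)
      obtain ⟨t, ht, htc⟩ := ih (I.filter fun i => ¬ e i < e j₀) (by
          have h5 : (I.filter fun i => ¬ e i < e j₀).card < I.card := by
            refine Finset.card_lt_card ?_
            rw [Finset.filter_ssubset]
            exact ⟨i₀, hi₀, not_not.2 hlt₀⟩
          omega) (fun i hi => hG i (Finset.mem_filter.1 hi).1)
        (cutL (fun n => ¬ n < τ) f) ((cutL_card _ f).trans hf) h2
        (fun i hi j hj => hψ i (Finset.mem_filter.1 hi).1 j (Finset.mem_filter.1 hj).1)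
      refine ⟨C (ψ i₀) * cutL (fun n => n < τ) f + t, ?_, fun n => ?_⟩
      · rw [hsplit, ht, Finset.sum_congr rfl fun i hi => by
          rw [hψ₁ i (Finset.mem_filter.1 hi).1 (Finset.mem_filter.1 hi).2], ← Finset.mul_sum,
          ← h1]
        ring
      · have h3 : (C (ψ i₀) * cutL (fun n => n < τ) f + t).coeff n =
            ψ i₀ * (if n < τ then f.coeff n else 0) + t.coeff n := by
          rw [AddMonoidAlgebra.coeff_add, Finsupp.add_apply, coeff_C_mul, cutL_coeff]
          by_cases hn : n < τ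
          · rw [if_pos hn, if_pos hn]
          · rw [if_neg hn, if_neg hn]
        rw [h3]
        by_cases hn : n < τ
        · rw [if_pos hn]
          have h4 : t.coeff n = 0 := by
            rcases htc n with h | ⟨i, _, h⟩
            · exact h
            · rw [h, cutL_coeff, if_neg (not_not.2 hn), mul_zero]
          exact Or.inr ⟨i₀, hi₀, by rw [h4, add_zero]⟩
        · rw [if_neg hn, mul_zero, zero_add]
          rcases htc n with h | ⟨i, hi, h⟩
          · exact Or.inl h
          · refine Or.inr ⟨i, (Finset.mem_filter.1 hi).1, ?_⟩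
            rw [h, cutL_coeff, if_pos hn]

end

end Pool.Agent.SRX
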