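import Mathlib
import Pool.Agent.SPT.LinF
import Pool.Agent.SRX.Cluster

/-!
# SRX, module SSC: the cluster lemma for the state sum, with the coefficients (helper62)
-/

set_option autoImplicit false
set_option linter.unusedSectionVars false

open Module Matrix Submodule Pool.Agent.UNI LaurentPolynomial

namespace Pool.Agent.SRX

open Pool.Agent.SPT.Lin Pool.Agent.SPT.Rel

section

variable {K : Type} [CommRing K] {E : Type} [Fintype E] [DecidableEq E]

/-- **The cluster lemma for the state sum**, over every commutative ring: the quotient has the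
coefficients of the state sum, multiplied by the values of `ψ`. -/
theorem ss_cluster (M : Matrix E E (ZMod 2)) (hM : ∀ i j, M i j = M j i) (σ : E → Bool)
    (B : ℕ) (hB : (SS K M σ).coeff.support.card ≤ B) (ψ : Finset (E → ZMod 2) → K)
    (hψ : ∀ F ∈ II M, ∀ F' ∈ II M,
      |∑ v ∈ F, tw M σ v - ∑ v ∈ F', tw M σ v| < 2 * ((B : ℤ) + 2) * (M.rank + 1) → ψ F = ψ F') :
    ∃ t : K[T;T⁻¹], PF K σ * ∑ F ∈ (Finset.univ.image M).powerset, C (ψ F) *
      Pool.Agent.SPT.Lin.GG M (fun c => qu K (σ c)) Finset.univ (ph K M) F = dl K ^ M.rank * t ∧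
      ∀ n, t.coeff n = 0 ∨ ∃ F ∈ II M, t.coeff n = ψ F * (SS K M σ).coeff n := by
  classical
  obtain ⟨m, hm⟩ := PF_eq (K := K) σ
  obtain ⟨G, hG⟩ : ∃ G : Finset (E → ZMod 2) → K[T;T⁻¹], ∀ F, G F =
      Pool.Agent.SPT.Lin.GG M (fun c => qu K (σ c)) Finset.univ (ph K M) F := ⟨_, fun _ => rfl⟩
  have h0 : ∀ F ∈ (Finset.univ.image M).powerset, F ∉ II M → G F = 0 := by
    intro F hF hFI
    unfold II at hFI
    rw [Finset.mem_filter, not_and, not_or, not_not] at hFI
    obtain ⟨h1, h2⟩ := hFI hF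
    rw [hG]
    unfold Pool.Agent.SPT.Lin.GG
    rw [KK_loop M _ F h2 h1, mul_zero]
  have hsub : II M ⊆ (Finset.univ.image M).powerset := Finset.filter_subset _ _
  have hsum : ∀ χ : Finset (E → ZMod 2) → K, ∑ F ∈ (Finset.univ.image M).powerset,
      C (χ F) * G F = ∑ F ∈ II M, C (χ F) * G F := by
    intro χ
    symm
    refine Finset.sum_subset hsub fun F hF hFI => ?_
    rw [h0 F hF hFI, mul_zero]
  have hSS := SS_eq (K := K) M hM σ
  have hsum1 : ∑ F ∈ (Finset.univ.image M).powerset, G F = ∑ F ∈ II M, G F := by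
    symm
    exact Finset.sum_subset hsub h0
  have hD : dl K ^ M.rank * SS K M σ = ∑ F ∈ II M, T m * G F := by
    rw [hSS, hm, ← Finset.mul_sum, ← hsum1]
    rw [Finset.sum_congr rfl fun F _ => hG F]
  obtain ⟨t, ht, htc⟩ := cluster' (dl K ^ M.rank) (4 * (M.rank : ℤ)) (by positivity)
    ((Sup_dl M.rank).mono fun n hn => by constructor <;> omega) B (fun F => T m * G F)
    (fun F => m + 4 * ∑ v ∈ F, tw M σ v) ψ ((B + 1) * (2 * (4 * (M.rank : ℤ)) + 1) +
      2 * (4 * (M.rank : ℤ))) le_rfl (II M).card (II M) le_rfl (by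
      intro F _
      have h1 := Sup_GG (K := K) M σ F
      rw [← hG] at h1
      refine Sup.mul (Sup.T m) h1 fun a b ha hb => ?_
      unfold tw
      constructor <;> omega) _ hB hD (by
      intro F hF F' hF' habs
      refine hψ F hF F' hF' ?_
      obtain ⟨x, hx⟩ : ∃ x : ℤ, x = ∑ v ∈ F, tw M σ v - ∑ v ∈ F', tw M σ v := ⟨_, rfl⟩
      have h1 : m + 4 * ∑ v ∈ F, tw M σ v - (m + 4 * ∑ v ∈ F', tw M σ v) = 4 * x := by
        rw [hx]
        ring
      rw [h1, abs_mul] at habs
      rw [← hx]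
      have h2 : |(4 : ℤ)| = 4 := by norm_num
      rw [h2] at habs
      have h3 : 2 * ((B : ℤ) + 2) * (M.rank + 1) =
          2 * ((B : ℤ) * M.rank) + 2 * B + 4 * M.rank + 4 := by ring
      have h4 : ((B : ℤ) + 1) * (2 * (4 * (M.rank : ℤ)) + 1) =
          8 * ((B : ℤ) * M.rank) + 8 * M.rank + B + 1 := by ring
      rw [h4] at habs
      rw [h3]
      have h5 : 0 ≤ (B : ℤ) * M.rank := by positivity
      omega)
  refine ⟨t, ?_, htc⟩
  rw [← ht, hm, Finset.mul_sum]
  rw [Finset.sum_congr rfl fun F _ => by rw [← hG F]]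
  rw [← Finset.sum_subset hsub fun F hF hFI => by rw [h0 F hF hFI, mul_zero, mul_zero]]
  refine Finset.sum_congr rfl fun F _ => ?_
  ring

end

end Pool.Agent.SRX
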