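import Mathlib
import Pool.Agent.SRX.SSC
import Pool.Agent.SRH.HV

/-!
# SRX, module Red: the state sum in terms of the sets of classes (helper62)

`S` contains one crossing for every nonzero row of `M`.
-/

set_option autoImplicit false
set_option linter.unusedSectionVars false

open Module Matrix Submodule Pool.Agent.UNI LaurentPolynomial

namespace Pool.Agent.SRX

open Pool.Agent.SPT.Lin Pool.Agent.SPT.Rel

/-! ### the monomials -/

section

variable {K : Type} [CommRing K]

/-- `(-A ^ 4) ^ a` -/
noncomputable def mT (K : Type) [CommRing K] (a : ℤ) : K[T;T⁻¹] :=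
  if Even a then T (4 * a) else -T (4 * a)

theorem mT_zero : mT K 0 = 1 := by
  unfold mT
  rw [if_pos ⟨0, rfl⟩, mul_zero, T_zero]

theorem mT_add (a b : ℤ) : mT K (a + b) = mT K a * mT K b := by
  unfold mT
  rw [mul_add, T_add]
  by_cases ha : Even a <;> by_cases hb : Even b
  · rw [if_pos ha, if_pos hb, if_pos (ha.add hb)]
  · rw [if_pos ha, if_neg hb, if_neg (by rw [Int.even_add]; tauto)]
    ring
  · rw [if_neg ha, if_pos hb, if_neg (by rw [Int.even_add]; tauto)]
    ring
  · rw [if_neg ha, if_neg hb, if_pos (by rw [Int.even_add]; tauto)]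
    ring

theorem mT_sum {ι : Type} (s : Finset ι) (f : ι → ℤ) :
    mT K (∑ i ∈ s, f i) = ∏ i ∈ s, mT K (f i) := by
  classical
  induction s using Finset.induction_on with
  | empty => rw [Finset.sum_empty, Finset.prod_empty, mT_zero]
  | insert a s ha ih => rw [Finset.sum_insert ha, Finset.prod_insert ha, mT_add, ih]

theorem mT_qu (b : Bool) : qu K b = mT K (if b then 1 else -1) := by
  unfold qu mT
  cases b
  · simp only [Bool.false_eq_true, if_false]
    rw [if_neg (by decide)]
    norm_num
  · simp only [if_true]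
    rw [if_neg (by decide)]
    norm_num

theorem mT_neg_mul (a : ℤ) : mT K (-a) * mT K a = 1 := by
  rw [← mT_add, neg_add_cancel, mT_zero]

end

/-! ### the coefficients of the expansion -/

section

variable {R ι κ : Type} [CommRing R] [DecidableEq ι] [DecidableEq κ]

/-- an element which does not matter -/
theorem KK_insert (X F : Finset κ) (a : κ) (ha : a ∉ X) (hF : F ⊆ X) (φ : Finset κ → R)
    (hφ : ∀ U ⊆ X, φ (insert a U) = φ U) : KK (insert a X) φ (insert a F) = KK X φ F := by
  unfold Pool.Agent.SPT.Lin.KK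
  have haF : a ∉ F := fun h => ha (hF h)
  have h1 : (insert a X).powerset.filter (fun U => insert a F ⊆ U) =
      (X.powerset.filter fun U => F ⊆ U).image (insert a) := by
    ext U
    rw [Finset.mem_filter, Finset.mem_powerset, Finset.mem_image]
    constructor
    · rintro ⟨h1, h2⟩
      rw [Finset.insert_subset_iff] at h2
      refine ⟨U.erase a, ?_, Finset.insert_erase h2.1⟩
      rw [Finset.mem_filter, Finset.mem_powerset]
      constructor
      · intro v hv
        rw [Finset.mem_erase] at hv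
        rcases Finset.mem_insert.1 (h1 hv.2) with h | h
        · exact absurd h hv.1
        · exact h
      · intro v hv
        rw [Finset.mem_erase]
        refine ⟨fun h => haF (h ▸ hv), h2.2 hv⟩
    · rintro ⟨U, hU, rfl⟩
      rw [Finset.mem_filter, Finset.mem_powerset] at hU
      exact ⟨Finset.insert_subset_insert a hU.1, Finset.insert_subset_insert a hU.2⟩
  rw [h1, Finset.sum_image]
  · refine Finset.sum_congr rfl fun U hU => ?_
    rw [Finset.mem_filter, Finset.mem_powerset] at hU
    have haU : a ∉ U := fun h => ha (hU.1 h)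
    rw [hφ U hU.1]
    congr 2
    have h2 : insert a U \ insert a F = U \ F := by
      ext v
      rw [Finset.mem_sdiff, Finset.mem_sdiff, Finset.mem_insert, Finset.mem_insert]
      constructor
      · rintro ⟨h3 | h3, h4⟩
        · exact absurd (Or.inl h3) h4
        · exact ⟨h3, fun h => h4 (Or.inr h)⟩
      · rintro ⟨h3, h4⟩
        refine ⟨Or.inr h3, ?_⟩
        rintro (h5 | h5)
        · exact haU (h5 ▸ h3)
        · exact h4 h5
    rw [h2]
  · intro U hU U' hU' h
    rw [Finset.mem_coe, Finset.mem_filter, Finset.mem_powerset] at hU hU'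
    have h1 : a ∉ U := fun h => ha (hU.1 h)
    have h2 : a ∉ U' := fun h => ha (hU'.1 h)
    rw [← Finset.erase_insert h1, ← Finset.erase_insert h2, h]

theorem image_subset_iff' (S : Finset ι) (g : ι → κ) (hg : Set.InjOn g (S : Set ι))
    (A B : Finset ι) (hA : A ⊆ S) (hB : B ⊆ S) : A.image g ⊆ B.image g ↔ A ⊆ B := by
  constructor
  · intro h i hi
    obtain ⟨j, hj, hji⟩ := Finset.mem_image.1 (h (Finset.mem_image_of_mem g hi))
    rwa [hg (hB hj) (hA hi) hji] at hj
  · exact fun h => Finset.image_subset_image h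

theorem image_inj' (S : Finset ι) (g : ι → κ) (hg : Set.InjOn g (S : Set ι))
    (A B : Finset ι) (hA : A ⊆ S) (hB : B ⊆ S) (h : A.image g = B.image g) : A = B :=
  Finset.Subset.antisymm ((image_subset_iff' S g hg A B hA hB).1 h.subset)
    ((image_subset_iff' S g hg B A hB hA).1 h.symm.subset)

theorem powerset_image' (S : Finset ι) (g : ι → κ) :
    (S.image g).powerset = S.powerset.image fun U => U.image g := by
  ext W
  rw [Finset.mem_powerset, Finset.mem_image, Finset.subset_image_iff]
  constructor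
  · rintro ⟨U, hU, rfl⟩
    exact ⟨U, Finset.mem_powerset.2 (Finset.coe_subset.1 hU), rfl⟩
  · rintro ⟨U, hU, rfl⟩
    exact ⟨U, Finset.coe_subset.2 (Finset.mem_powerset.1 hU), rfl⟩

theorem sum_image' (S : Finset ι) (g : ι → κ) (hg : Set.InjOn g (S : Set ι))
    (f : Finset κ → R) : ∑ F ∈ (S.image g).powerset, f F = ∑ F ∈ S.powerset, f (F.image g) := by
  rw [powerset_image', Finset.sum_image]
  intro A hA B hB h
  rw [Finset.mem_coe, Finset.mem_powerset] at hA hB
  exact image_inj' S g hg A B hA hB h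

theorem KK_image (S : Finset ι) (g : ι → κ) (hg : Set.InjOn g (S : Set ι)) (φ : Finset κ → R)
    (F : Finset ι) (hF : F ⊆ S) :
    KK (S.image g) φ (F.image g) = KK S (fun U => φ (U.image g)) F := by
  unfold Pool.Agent.SPT.Lin.KK
  rw [Finset.sum_filter, Finset.sum_filter, sum_image' S g hg]
  refine Finset.sum_congr rfl fun U hU => ?_
  rw [Finset.mem_powerset] at hU
  have h1 := image_subset_iff' S g hg F U hF hU
  by_cases h : F ⊆ U
  · rw [if_pos h, if_pos (h1.2 h)]
    congr 2
    have h2 : U.image g \ F.image g = (U \ F).image g := by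
      ext v
      rw [Finset.mem_sdiff, Finset.mem_image, Finset.mem_image, Finset.mem_image]
      constructor
      · rintro ⟨⟨i, hi, rfl⟩, h3⟩
        refine ⟨i, Finset.mem_sdiff.2 ⟨hi, fun h4 => h3 ⟨i, h4, rfl⟩⟩, rfl⟩
      · rintro ⟨i, hi, rfl⟩
        rw [Finset.mem_sdiff] at hi
        refine ⟨⟨i, hi.1, rfl⟩, ?_⟩
        rintro ⟨j, hj, hji⟩
        exact hi.2 (hg (hF hj) (hU hi.1) hji ▸ hj)
    rw [h2, Finset.card_image_of_injOn (hg.mono (Finset.coe_subset.2
      (Finset.sdiff_subset.trans hU)))]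
  · rw [if_neg h, if_neg fun h2 => h (h1.1 h2)]

theorem KK_congr (X : Finset κ) (φ φ' : Finset κ → R) (F : Finset κ)
    (h : ∀ U ⊆ X, φ U = φ' U) : KK X φ F = KK X φ' F := by
  unfold Pool.Agent.SPT.Lin.KK
  refine Finset.sum_congr rfl fun U hU => ?_
  rw [Finset.mem_filter, Finset.mem_powerset] at hU
  rw [h U hU.1]

end

/-! ### the reduced form of the state sum -/

section

variable {K : Type} [CommRing K] {E : Type} [Fintype E] [DecidableEq E]

/-- the weight of the set `F` of classes -/
noncomputable def GS (K : Type) [CommRing K] (M : Matrix E E (ZMod 2)) (σ : E → Bool)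
    (S F : Finset E) : K[T;T⁻¹] :=
  mT K (∑ i ∈ F, tw M σ (M i)) * KK S (fun U => dl K ^ ex M (U.image M)) F

theorem pw_eq (M : Matrix E E (ZMod 2)) (σ : E → Bool) (v : E → ZMod 2) :
    pw M (fun c => qu K (σ c)) Finset.univ v = mT K (tw M σ v) := by
  unfold pw tw Pool.Agent.SPT.signedCount
  rw [mT_sum]
  refine Finset.prod_congr rfl fun c _ => ?_
  exact mT_qu (σ c)

/-- the sum over the sets of rows -/
theorem sum_red (M : Matrix E E (ZMod 2)) (σ : E → Bool) (S : Finset E)
    (hS : S.image M = (Finset.univ.image M).erase 0) (hinj : Set.InjOn M (S : Set E))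
    (ψ : Finset (E → ZMod 2) → K) :
    ∑ F ∈ (Finset.univ.image M).powerset, C (ψ F) *
      Pool.Agent.SPT.Lin.GG M (fun c => qu K (σ c)) Finset.univ (ph K M) F =
    mT K (tw M σ 0) * ∑ F ∈ S.powerset,
      C (ψ (if (0 : E → ZMod 2) ∈ Finset.univ.image M then insert 0 (F.image M) else F.image M)) *
        GS K M σ S F := by
  classical
  have hX0 : (0 : E → ZMod 2) ∉ S.image M := by
    rw [hS]
    exact Finset.notMem_erase _ _
  have hφ : ∀ U ⊆ S.image M, ph K M (insert 0 U) = ph K M U := by
    intro U _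
    unfold ph
    rw [ex_zero]
  have hprod : ∀ F ⊆ S, ∏ k ∈ F.image M, pw M (fun c => qu K (σ c)) Finset.univ k =
      mT K (∑ i ∈ F, tw M σ (M i)) := by
    intro F hF
    rw [Finset.prod_image (hinj.mono (Finset.coe_subset.2 hF)), mT_sum]
    exact Finset.prod_congr rfl fun i _ => pw_eq M σ (M i)
  by_cases h0 : (0 : E → ZMod 2) ∈ Finset.univ.image M
  · have hX : Finset.univ.image M = insert 0 (S.image M) := by
      rw [hS, Finset.insert_erase h0]
    have h1 : ∀ F ∈ (Finset.univ.image M).powerset, (0 : E → ZMod 2) ∉ F →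
        C (ψ F) * Pool.Agent.SPT.Lin.GG M (fun c => qu K (σ c)) Finset.univ (ph K M) F = 0 := by
      intro F _ hF0
      unfold Pool.Agent.SPT.Lin.GG
      rw [KK_loop M _ F h0 hF0, mul_zero, mul_zero]
    have h2 : ∑ F ∈ (Finset.univ.image M).powerset, C (ψ F) *
        Pool.Agent.SPT.Lin.GG M (fun c => qu K (σ c)) Finset.univ (ph K M) F =
        ∑ F ∈ (S.image M).powerset, C (ψ (insert 0 F)) *
        Pool.Agent.SPT.Lin.GG M (fun c => qu K (σ c)) Finset.univ (ph K M) (insert 0 F) := by
      have h3 : (Finset.univ.image M).powerset = (insert 0 (S.image M)).powerset := by rw [← hX]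
      rw [h3, Finset.sum_powerset_insert hX0]
      rw [Finset.sum_eq_zero fun F hF => h1 F (by
        rw [h3]
        exact Finset.powerset_mono.2 (Finset.subset_insert _ _) hF)
        fun h => hX0 (Finset.mem_powerset.1 hF h), zero_add]
    rw [h2, sum_image' S M hinj, Finset.mul_sum]
    refine Finset.sum_congr rfl fun F hF => ?_
    rw [Finset.mem_powerset] at hF
    rw [if_pos h0]
    unfold GS Pool.Agent.SPT.Lin.GG
    have h4 : (0 : E → ZMod 2) ∉ F.image M := fun h => hX0 (Finset.image_subset_image hF h)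
    rw [Finset.prod_insert h4, hprod F hF, pw_eq, hX,
      KK_insert (S.image M) (F.image M) 0 hX0 (Finset.image_subset_image hF) _ hφ,
      KK_image S M hinj _ F hF]
    unfold ph
    ring
  · have hX : Finset.univ.image M = S.image M := by
      rw [hS, Finset.erase_eq_of_notMem h0]
    have h5 : tw M σ 0 = 0 := by
      unfold tw Pool.Agent.SPT.signedCount
      rw [Finset.filter_eq_empty_iff.2, Finset.sum_empty]
      intro c _ hc
      exact h0 (hc ▸ Finset.mem_image_of_mem M (Finset.mem_univ c))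
    rw [h5, mT_zero, one_mul]
    rw [show (Finset.univ.image M).powerset = (S.image M).powerset by rw [hX],
      sum_image' S M hinj]
    refine Finset.sum_congr rfl fun F hF => ?_
    rw [Finset.mem_powerset] at hF
    rw [if_neg h0]
    unfold GS Pool.Agent.SPT.Lin.GG
    rw [hprod F hF, hX, KK_image S M hinj _ F hF]
    rfl

/-- **the state sum in terms of the sets of classes** -/
theorem SS_red (M : Matrix E E (ZMod 2)) (hM : ∀ i j, M i j = M j i) (σ : E → Bool)
    (S : Finset E) (hS : S.image M = (Finset.univ.image M).erase 0)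
    (hinj : Set.InjOn M (S : Set E)) :
    dl K ^ M.rank * SS K M σ =
      PF K σ * (mT K (tw M σ 0) * ∑ F ∈ S.powerset, GS K M σ S F) := by
  have h1 := sum_red (K := K) M σ S hS hinj fun _ => 1
  simp only [map_one, one_mul] at h1
  rw [SS_eq M hM σ, ← h1]

/-- the rank -/
theorem rank_kap (M : Matrix E E (ZMod 2)) (hM : ∀ i j, M i j = M j i)
    (S : Finset E) (hS : S.image M = (Finset.univ.image M).erase 0) :
    kap M S + M.rank = S.card := by
  have h1 := kap_ex M hM S
  rw [Pool.Agent.SRH.HV_span M (S.image M)] at h1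
  · exact h1
  · rw [hS]
    exact Finset.erase_subset _ _
  · rw [hS]
    exact span_erase_zero _

/-- **The cluster lemma in terms of the sets of classes** -/
theorem ss_cluster_red (M : Matrix E E (ZMod 2)) (hM : ∀ i j, M i j = M j i) (σ : E → Bool)
    (S : Finset E) (hS : S.image M = (Finset.univ.image M).erase 0)
    (hinj : Set.InjOn M (S : Set E))
    (B : ℕ) (hB : (SS K M σ).coeff.support.card ≤ B) (ψ : Finset E → K)
    (hψ : ∀ F ⊆ S, ∀ F' ⊆ S, |∑ i ∈ F, tw M σ (M i) - ∑ i ∈ F', tw M σ (M i)| <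
      2 * ((B : ℤ) + 2) * (M.rank + 1) → ψ F = ψ F') :
    ∃ t : K[T;T⁻¹], PF K σ * (mT K (tw M σ 0) * ∑ F ∈ S.powerset, C (ψ F) * GS K M σ S F) =
      dl K ^ M.rank * t ∧
      ∀ n, t.coeff n = 0 ∨ ∃ F ⊆ S, t.coeff n = ψ F * (SS K M σ).coeff n := by
  classical
  obtain ⟨χ, hχ⟩ : ∃ χ : Finset (E → ZMod 2) → Finset E,
    ∀ F, χ F = S.filter fun i => M i ∈ F := ⟨_, fun _ => rfl⟩
  have hX0 : (0 : E → ZMod 2) ∉ S.image M := by
    rw [hS]
    exact Finset.notMem_erase _ _
  have hχS : ∀ F, χ F ⊆ S := by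
    intro F
    rw [hχ]
    exact Finset.filter_subset _ _
  have hχi : ∀ F ⊆ S, ∀ G : Finset (E → ZMod 2), (G = F.image M ∨ G = insert 0 (F.image M)) →
      χ G = F := by
    intro F hF G hG
    rw [hχ]
    ext i
    rw [Finset.mem_filter]
    constructor
    · rintro ⟨hi, hi2⟩
      have h1 : M i ∈ F.image M := by
        rcases hG with rfl | rfl
        · exact hi2
        · rcases Finset.mem_insert.1 hi2 with h | h
          · exact absurd (h ▸ Finset.mem_image_of_mem M hi) hX0
          · exact h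
      obtain ⟨j, hj, hji⟩ := Finset.mem_image.1 h1
      rwa [hinj (hF hj) hi hji] at hj
    · intro hi
      refine ⟨hF hi, ?_⟩
      rcases hG with rfl | rfl
      · exact Finset.mem_image_of_mem M hi
      · exact Finset.mem_insert_of_mem (Finset.mem_image_of_mem M hi)
  have hsumχ : ∀ F ∈ II M, ∑ v ∈ F, tw M σ v = ∑ i ∈ χ F, tw M σ (M i) +
      if (0 : E → ZMod 2) ∈ Finset.univ.image M then tw M σ 0 else 0 := by
    intro F hF
    unfold II at hF
    rw [Finset.mem_filter, Finset.mem_powerset] at hF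
    have h1 : (χ F).image M = F.erase 0 := by
      ext v
      rw [Finset.mem_image, Finset.mem_erase]
      constructor
      · rintro ⟨i, hi, rfl⟩
        rw [hχ, Finset.mem_filter] at hi
        refine ⟨fun h => hX0 (h ▸ Finset.mem_image_of_mem M hi.1), hi.2⟩
      · rintro ⟨hv0, hv⟩
        have h2 : v ∈ S.image M := by
          rw [hS]
          exact Finset.mem_erase.2 ⟨hv0, hF.1 hv⟩
        obtain ⟨i, hi, rfl⟩ := Finset.mem_image.1 h2
        refine ⟨i, ?_, rfl⟩
        rw [hχ, Finset.mem_filter]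
        exact ⟨hi, hv⟩
    have h2 : ∑ i ∈ χ F, tw M σ (M i) = ∑ v ∈ F.erase 0, tw M σ v := by
      rw [← h1, Finset.sum_image (hinj.mono (Finset.coe_subset.2 (hχS F)))]
    rw [h2]
    by_cases h0 : (0 : E → ZMod 2) ∈ Finset.univ.image M
    · rw [if_pos h0, Finset.sum_erase_add _ _ (hF.2.resolve_right (not_not.2 h0))]
    · rw [if_neg h0, add_zero, Finset.erase_eq_of_notMem fun h => h0 (hF.1 h)]
  obtain ⟨t, ht, htc⟩ := ss_cluster (K := K) M hM σ B hB (fun F => ψ (χ F)) (by
    intro F hF F' hF' h
    refine hψ _ (hχS F) _ (hχS F') ?_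
    rw [hsumχ F hF, hsumχ F' hF', add_sub_add_right_eq_sub] at h
    exact h)
  refine ⟨t, ?_, fun n => ?_⟩
  · rw [← ht, sum_red M σ S hS hinj]
    congr 2
    refine Finset.sum_congr rfl fun F hF => ?_
    rw [Finset.mem_powerset] at hF
    congr 2
    show ψ F = ψ (χ (if (0 : E → ZMod 2) ∈ Finset.univ.image M then insert 0 (F.image M)
      else F.image M))
    by_cases h0 : (0 : E → ZMod 2) ∈ Finset.univ.image M
    · rw [if_pos h0, hχi F hF _ (Or.inr rfl)]
    · rw [if_neg h0, hχi F hF _ (Or.inl rfl)]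
  · rcases htc n with h | ⟨F, hF, h⟩
    · exact Or.inl h
    · exact Or.inr ⟨χ F, hχS F, h⟩

end

end Pool.Agent.SRX
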