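import Mathlib
import Pool.Agent.SRX.Red

/-!
# SRX, module Rigid: two state sums of the same shape (helper62)

If the first state sum has at most `B` terms, and the difference of the twists of the second and of the
first is orthogonal to all short vectors, then the second state sum has at most `B` terms.
-/

set_option autoImplicit false
set_option linter.unusedSectionVars false

open Module Matrix Submodule Pool.Agent.UNI LaurentPolynomial

namespace Pool.Agent.SRX

open Pool.Agent.SPT.Lin Pool.Agent.SPT.Rel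

/-! ### a change of the coefficients -/

section

variable {K K' : Type} [CommRing K] [CommRing K'] (h : K[T;T⁻¹] →+* K'[T;T⁻¹])
  (hT : ∀ n, h (T n) = T n)

include hT

theorem hom_dl : h (dl K) = dl K' := by
  unfold dl
  rw [map_sub, map_neg, hT, hT]

theorem hom_al (b : Bool) : h (al K b) = al K' b := by
  unfold al
  cases b
  · simp only [Bool.false_eq_true, if_false]
    exact hT _
  · simp only [if_true]
    exact hT _

theorem hom_mT (a : ℤ) : h (mT K a) = mT K' a := by
  unfold mT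
  split_ifs
  · exact hT _
  · rw [map_neg, hT]

variable {E : Type} [Fintype E] [DecidableEq E]

theorem hom_PF (σ : E → Bool) : h (PF K σ) = PF K' σ := by
  unfold PF
  rw [map_prod]
  exact Finset.prod_congr rfl fun c _ => hom_al h hT _

theorem hom_SS (M : Matrix E E (ZMod 2)) (σ : E → Bool) : h (SS K M σ) = SS K' M σ := by
  unfold SS
  rw [map_sum]
  refine Finset.sum_congr rfl fun s _ => ?_
  rw [map_mul, map_prod, map_pow, hom_dl h hT]
  congr 1
  exact Finset.prod_congr rfl fun c _ => hom_al h hT _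

theorem hom_GS (M : Matrix E E (ZMod 2)) (σ : E → Bool) (S F : Finset E) :
    h (GS K M σ S F) = GS K' M σ S F := by
  unfold GS Pool.Agent.SPT.Lin.KK
  rw [map_mul, hom_mT h hT, map_sum]
  congr 1
  refine Finset.sum_congr rfl fun U _ => ?_
  rw [map_mul, map_pow, map_pow, map_neg, map_one, hom_dl h hT]

end

/-! ### integer coefficients to Laurent polynomials and back -/

/-- the coefficients are integers -/
noncomputable def up : ℤ[T;T⁻¹] →+* (ℤ[T;T⁻¹])[T;T⁻¹] :=
  AddMonoidAlgebra.mapRingHom ℤ (Int.castRingHom ℤ[T;T⁻¹])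

theorem up_coeff (f : ℤ[T;T⁻¹]) (n : ℤ) : (up f).coeff n = ((f.coeff n : ℤ) : ℤ[T;T⁻¹]) := by
  unfold up
  rw [AddMonoidAlgebra.coeff_mapRingHom]
  rfl

theorem up_T (n : ℤ) : up (T n) = T n := by
  apply LaurentPolynomial.ext
  intro m
  rw [up_coeff, T_apply, T_apply]
  split_ifs <;> simp

/-- the two variables become equal -/
noncomputable def down : (ℤ[T;T⁻¹])[T;T⁻¹] →+* ℤ[T;T⁻¹] :=
  LaurentPolynomial.eval₂ (RingHom.id ℤ[T;T⁻¹])
    ⟨T 1, T (-1), by rw [← T_add, add_neg_cancel, T_zero], by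
      rw [← T_add, neg_add_cancel, T_zero]⟩

theorem down_C (a : ℤ[T;T⁻¹]) : down (C a) = a := by
  unfold down
  rw [eval₂_C]
  rfl

theorem down_T (n : ℤ) : down (T n) = T n := by
  have h1 : ∀ m : ℕ, down (T (m : ℤ)) = T (m : ℤ) := by
    intro m
    unfold down
    rw [eval₂_T, zpow_natCast, Units.val_pow_eq_pow_val, T_pow, mul_one]
  have h2 : ∀ m : ℕ, down (T (-(m : ℤ))) = T (-(m : ℤ)) := by
    intro m
    have h3 : down (T (m : ℤ)) * down (T (-(m : ℤ))) = 1 := by
      rw [← map_mul, ← T_add, add_neg_cancel, T_zero, map_one]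
    rw [h1] at h3
    have h4 : (T (m : ℤ) : ℤ[T;T⁻¹]) * T (-(m : ℤ)) = 1 := by
      rw [← T_add, add_neg_cancel, T_zero]
    calc down (T (-(m : ℤ))) = (T (m : ℤ) * T (-(m : ℤ))) * down (T (-(m : ℤ))) := by
          rw [h4, one_mul]
      _ = T (-(m : ℤ)) * (T (m : ℤ) * down (T (-(m : ℤ)))) := by ring
      _ = _ := by rw [h3, mul_one]
  rcases Int.eq_nat_or_neg n with ⟨m, rfl | rfl⟩
  · exact h1 m
  · exact h2 m

/-- the value is the sum of the coefficients times the monomials -/
theorem down_eq (t : (ℤ[T;T⁻¹])[T;T⁻¹]) :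
    down t = ∑ n ∈ t.coeff.support, t.coeff n * T n := by
  have h1 : t = ∑ n ∈ t.coeff.support, C (t.coeff n) * T n := by
    apply LaurentPolynomial.ext
    intro m
    have h2 : (∑ n ∈ t.coeff.support, C (t.coeff n) * T n : (ℤ[T;T⁻¹])[T;T⁻¹]).coeff m =
        ∑ n ∈ t.coeff.support, (C (t.coeff n) * T n : (ℤ[T;T⁻¹])[T;T⁻¹]).coeff m := by
      have h3 : ∀ s : Finset ℤ, (∑ n ∈ s, C (t.coeff n) * T n : (ℤ[T;T⁻¹])[T;T⁻¹]).coeff m =
          ∑ n ∈ s, (C (t.coeff n) * T n : (ℤ[T;T⁻¹])[T;T⁻¹]).coeff m := by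
        intro s
        classical
        induction s using Finset.induction_on with
        | empty =>
          rw [Finset.sum_empty, Finset.sum_empty]
          rfl
        | insert a s ha ih =>
          rw [Finset.sum_insert ha, Finset.sum_insert ha, AddMonoidAlgebra.coeff_add,
            Finsupp.add_apply, ih]
      exact h3 _
    rw [h2]
    have h4 : ∀ n, (C (t.coeff n) * T n : (ℤ[T;T⁻¹])[T;T⁻¹]).coeff m =
        if n = m then t.coeff n else 0 := by
      intro n
      rw [coeff_C_mul, T_apply]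
      split_ifs <;> simp
    rw [Finset.sum_congr rfl fun n _ => h4 n, Finset.sum_ite_eq' t.coeff.support m]
    split_ifs with h5
    · rfl
    · rw [Finsupp.mem_support_iff, not_not] at h5
      exact h5
  conv_lhs => rw [h1]
  rw [map_sum]
  refine Finset.sum_congr rfl fun n _ => ?_
  rw [map_mul, down_C, down_T]

/-! ### counting -/

section

variable {K : Type} [CommRing K]

theorem card_of_Sup (f : K[T;T⁻¹]) (A : Finset ℤ) (h : Sup (fun n => n ∈ A) f) :
    f.coeff.support.card ≤ A.card :=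
  Finset.card_le_card fun n hn => h n (Finsupp.mem_support_iff.1 hn)

theorem Sup_mT (a : ℤ) : Sup (fun n => n = 4 * a) (mT K a) := by
  unfold mT
  split_ifs
  · exact Sup.T _
  · exact Sup.neg (Sup.T _)

/-- a monomial -/
def IsMono (f : K[T;T⁻¹]) : Prop := ∃ e : ℤ, Sup (fun n => n = e) f

theorem IsMono.mul {f g : K[T;T⁻¹]} (hf : IsMono f) (hg : IsMono g) : IsMono (f * g) := by
  obtain ⟨e, he⟩ := hf
  obtain ⟨e', he'⟩ := hg
  refine ⟨e + e', Sup.mul he he' fun a b ha hb => ?_⟩
  rw [ha, hb]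

theorem IsMono.T (n : ℤ) : IsMono (T n : K[T;T⁻¹]) := ⟨n, Sup.T n⟩

theorem IsMono.mT (a : ℤ) : IsMono (mT K a) := ⟨4 * a, Sup_mT a⟩

/-- a sum of monomials -/
theorem card_sum (s : Finset ℤ) (g : ℤ → K[T;T⁻¹]) (h : ∀ i ∈ s, IsMono (g i)) :
    (∑ i ∈ s, g i).coeff.support.card ≤ s.card := by
  classical
  unfold IsMono at h
  choose! e he using h
  refine (card_of_Sup _ (s.image e) (Sup.sum _ _ fun i hi => (he i hi).mono fun n hn => ?_)).trans
    Finset.card_image_le
  rw [hn]
  exact Finset.mem_image_of_mem e hi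

/-- the product with a monomial -/
theorem card_mul_mono (f : K[T;T⁻¹]) (m : K[T;T⁻¹]) (hm : IsMono m) :
    (m * f).coeff.support.card ≤ f.coeff.support.card := by
  classical
  obtain ⟨e, hm⟩ := hm
  have h1 : Sup (fun n => n ∈ f.coeff.support.image fun j => e + j) (m * f) := by
    refine Sup.mul (p := fun n => n = e) (q := fun n => n ∈ f.coeff.support) hm
      (fun n hn => Finsupp.mem_support_iff.2 hn) fun a b ha hb => ?_
    rw [ha]
    exact Finset.mem_image_of_mem (fun j => e + j) hb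
  exact (card_of_Sup _ _ h1).trans Finset.card_image_le

end

theorem dl_ne_zero : dl ℤ ≠ 0 := by
  intro h
  have h1 : (dl ℤ).coeff 2 = 0 := by
    rw [h, AddMonoidAlgebra.coeff_zero, Finsupp.zero_apply]
  unfold dl at h1
  rw [AddMonoidAlgebra.coeff_sub, AddMonoidAlgebra.coeff_neg, Finsupp.sub_apply,
    Finsupp.neg_apply, T_apply, T_apply, if_pos rfl, if_neg (by decide)] at h1
  exact absurd h1 (by decide)

/-! ### rigidity -/

section

variable {E E' : Type} [Fintype E] [DecidableEq E] [Fintype E'] [DecidableEq E']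

/-- **Rigidity** -/
theorem rigid (M : Matrix E E (ZMod 2)) (hM : ∀ i j, M i j = M j i) (σ : E → Bool)
    (S : Finset E) (hS : S.image M = (Finset.univ.image M).erase 0)
    (hinj : Set.InjOn M (S : Set E))
    (M' : Matrix E' E' (ZMod 2)) (hM' : ∀ i j, M' i j = M' j i) (σ' : E' → Bool)
    (S' : Finset E') (hS' : S'.image M' = (Finset.univ.image M').erase 0)
    (hinj' : Set.InjOn M' (S' : Set E'))
    (φ : E → E') (hφ : Set.InjOn φ (S : Set E)) (hφS : S.image φ = S')
    (hshape : ∀ U ⊆ S, kap M U = kap M' (U.image φ))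
    (B : ℕ) (hB : (SS ℤ M σ).coeff.support.card ≤ B)
    (hd : ∀ F ⊆ S, ∀ F' ⊆ S, |∑ i ∈ F, tw M σ (M i) - ∑ i ∈ F', tw M σ (M i)| <
      2 * ((B : ℤ) + 2) * (M.rank + 1) →
      ∑ i ∈ F, (tw M' σ' (M' (φ i)) - tw M σ (M i)) =
        ∑ i ∈ F', (tw M' σ' (M' (φ i)) - tw M σ (M i))) :
    (SS ℤ M' σ').coeff.support.card ≤ B := by
  classical
  -- the ranks
  have hcard : S'.card = S.card := by
    rw [← hφS, Finset.card_image_of_injOn hφ]
  have hrank : M'.rank = M.rank := by
    have h1 := rank_kap M hM S hS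
    have h2 := rank_kap M' hM' S' hS'
    have h3 := hshape S (Finset.Subset.refl S)
    rw [hφS] at h3
    omega
  have hex : ∀ U ⊆ S, ex M (U.image M) = ex M' ((U.image φ).image M') := by
    intro U hU
    have h1 := kap_ex M hM U
    have h2 := kap_ex M' hM' (U.image φ)
    have h3 := hshape U hU
    have h4 : (U.image φ).card = U.card :=
      Finset.card_image_of_injOn (hφ.mono (Finset.coe_subset.2 hU))
    omega
  -- the cluster lemma
  have hup : SS ℤ[T;T⁻¹] M σ = up (SS ℤ M σ) := (hom_SS up up_T M σ).symm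
  obtain ⟨t, ht, htc⟩ := ss_cluster_red (K := ℤ[T;T⁻¹]) M hM σ S hS hinj B (by
      refine le_trans (Finset.card_le_card fun n hn => ?_) hB
      rw [Finsupp.mem_support_iff, hup, up_coeff] at hn
      rw [Finsupp.mem_support_iff]
      intro h
      apply hn
      rw [h, Int.cast_zero])
    (fun F => mT ℤ (∑ i ∈ F, (tw M' σ' (M' (φ i)) - tw M σ (M i)))) (by
      intro F hF F' hF' h
      show mT ℤ _ = mT ℤ _
      rw [hd F hF F' hF' h])
  have h1 := congrArg down ht
  rw [map_mul, map_mul, map_mul, map_pow, hom_PF down down_T, hom_mT down down_T,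
    hom_dl down down_T, map_sum] at h1
  -- the terms
  have h2 : ∀ F ∈ S.powerset, down (C (mT ℤ (∑ i ∈ F, (tw M' σ' (M' (φ i)) - tw M σ (M i)))) *
      GS ℤ[T;T⁻¹] M σ S F) = GS ℤ M' σ' S' (F.image φ) := by
    intro F hF
    rw [Finset.mem_powerset] at hF
    rw [map_mul, down_C, hom_GS down down_T]
    unfold GS
    rw [← mul_assoc, ← mT_add, ← Finset.sum_add_distrib]
    have h3 : ∑ i ∈ F, (tw M' σ' (M' (φ i)) - tw M σ (M i) + tw M σ (M i)) =
        ∑ i ∈ F.image φ, tw M' σ' (M' i) := by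
      rw [Finset.sum_image (hφ.mono (Finset.coe_subset.2 hF))]
      refine Finset.sum_congr rfl fun i _ => ?_
      ring
    rw [h3, ← hφS, KK_image S φ hφ _ F hF]
    congr 1
    refine KK_congr S _ _ F fun U hU => ?_
    show dl ℤ ^ ex M (U.image M) = dl ℤ ^ ex M' ((U.image φ).image M')
    rw [hex U hU]
  rw [Finset.sum_congr rfl h2] at h1
  have h3 := SS_red (K := ℤ) M' hM' σ' S' hS' hinj'
  rw [← hφS, sum_image' S φ hφ, hφS, hrank] at h3
  obtain ⟨m, hm⟩ := PF_eq (K := ℤ) σ
  obtain ⟨m', hm'⟩ := PF_eq (K := ℤ) σ'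
  rw [hm] at h1
  rw [hm'] at h3
  have h4 : dl ℤ ^ M.rank * (T m * mT ℤ (tw M σ 0) * SS ℤ M' σ') =
      dl ℤ ^ M.rank * (T m' * mT ℤ (tw M' σ' 0) * down t) := by
    calc dl ℤ ^ M.rank * (T m * mT ℤ (tw M σ 0) * SS ℤ M' σ')
        = T m * mT ℤ (tw M σ 0) * (dl ℤ ^ M.rank * SS ℤ M' σ') := by ring
      _ = T m' * mT ℤ (tw M' σ' 0) * (T m * (mT ℤ (tw M σ 0) *
          ∑ F ∈ S.powerset, GS ℤ M' σ' S' (F.image φ))) := by
        rw [h3]
        ring
      _ = _ := by
        rw [h1]
        ring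
  have h5 := mul_left_cancel₀ (pow_ne_zero _ dl_ne_zero) h4
  have h6 : SS ℤ M' σ' = (T (-m) * mT ℤ (-(tw M σ 0)) * T m' * mT ℤ (tw M' σ' 0)) * down t := by
    have h7 : (T (-m) * T m : ℤ[T;T⁻¹]) = 1 := by rw [← T_add, neg_add_cancel, T_zero]
    have h8 := mT_neg_mul (K := ℤ) (tw M σ 0)
    calc SS ℤ M' σ' = (T (-m) * T m) * (mT ℤ (-(tw M σ 0)) * mT ℤ (tw M σ 0)) *
          SS ℤ M' σ' := by rw [h7, h8, one_mul, one_mul]
      _ = T (-m) * mT ℤ (-(tw M σ 0)) * (T m * mT ℤ (tw M σ 0) * SS ℤ M' σ') := by ring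
      _ = _ := by
        rw [h5]
        ring
  have h9 : (down t).coeff.support.card ≤ B := by
    rw [down_eq]
    have h10 : t.coeff.support.card ≤ B := by
      refine le_trans (Finset.card_le_card fun n hn => ?_) hB
      rw [Finsupp.mem_support_iff] at hn ⊢
      intro h
      rcases htc n with h11 | ⟨F, -, h11⟩
      · exact hn h11
      · rw [hup, up_coeff, h, Int.cast_zero, mul_zero] at h11
        exact hn h11
    refine (card_sum _ _ fun n hn => ?_).trans h10
    rw [Finsupp.mem_support_iff] at hn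
    rcases htc n with h11 | ⟨F, -, h11⟩
    · exact absurd h11 hn
    · rw [h11, hup, up_coeff]
      have h12 : IsMono (((SS ℤ M σ).coeff n : ℤ) : ℤ[T;T⁻¹]) := by
        have h13 : (((SS ℤ M σ).coeff n : ℤ) : ℤ[T;T⁻¹]) = C ((SS ℤ M σ).coeff n) := by
          rw [← map_intCast (C : ℤ →+* ℤ[T;T⁻¹]), Int.cast_id]
        rw [h13]
        exact ⟨0, Sup.C _⟩
      exact ((IsMono.mT _).mul h12).mul (IsMono.T n)
  rw [h6]
  exact (card_mul_mono _ _ ((((IsMono.T _).mul (IsMono.mT _)).mul (IsMono.T _)).mul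
    (IsMono.mT _))).trans h9

end

end Pool.Agent.SRX
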