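import Pool.Agent.SRX.Shape
import Pool.Agent.SRX.Rigid

/-!
# SRX, module Knot: rigidity for knot and knotoid diagrams (helper62)
-/

set_option autoImplicit false
set_option linter.unusedSectionVars false

open Module Submodule LaurentPolynomial Pool.Agent.UNI

namespace Pool.Agent.SRX

open Pool.Agent.SPT Pool.Agent.EQT Pool.Agent.FHP Pool.Agent.SPT.Rel Pool.Agent.SPT.Lin
  Pool.Agent.Helper16.Knotoid

variable {n : ℕ}

section

variable {I : Fin n → Fin n → Prop} {e : Fin n → Bool}

/-- the relation of a state -/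
def RS (I : Fin n → Fin n → Prop) (e σ : Fin n → Bool) (i j : Fin n) : Prop :=
  I i j ∨ (i = j ∧ σ i ≠ e i)

/-- the state in terms of the types of the smoothings -/
def typ (e τ : Fin n → Bool) : Fin n → Bool := fun i => τ i == e i

theorem typ_ne (e τ : Fin n → Bool) (i : Fin n) : typ e τ i ≠ e i ↔ τ i = false := by
  unfold typ
  cases τ i <;> cases e i <;> decide

theorem cutAll_false (i : Fin n) : cutAll I i = false ↔ ∃ j, Twins I i j ∧ I i j := by
  classical
  unfold cutAll
  by_cases h : ∃ j, Twins I i j ∧ I i j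
  · rw [if_pos h]
    exact ⟨fun _ => h, fun _ => rfl⟩
  · rw [if_neg h]
    exact ⟨fun h' => absurd h' (by decide), fun h' => absurd h' h⟩

theorem RS_diag (hi : ∀ i, ¬ I i i) (hs : ∀ i j, I i j → I j i) {τ : Fin n → Bool}
    (hτ : Cuts I τ) {i j : Fin n} (h : Twins I i j) (hij : j ≠ i) :
    typ e τ i ≠ e i ↔ I i j := by
  rw [typ_ne]
  rcases hτ i with h1 | ⟨-, h1⟩
  · rw [h1, cutAll_false]
    constructor
    · rintro ⟨k, h2, h3⟩
      exact Graph_adj hi hs h2 h3 h hij
    · intro h2
      exact ⟨j, h, h2⟩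
  · exact absurd (h1 j h) hij

theorem RS_row (hi : ∀ i, ¬ I i i) (hs : ∀ i j, I i j → I j i) {τ : Fin n → Bool}
    (hτ : Cuts I τ) (i j : Fin n) :
    row (RS I e (typ e τ)) i = row (RS I e (typ e τ)) j ↔ Twins I i j := by
  classical
  have h0 : row (RS I e (typ e τ)) i = row (RS I e (typ e τ)) j ↔
      ∀ k, (RS I e (typ e τ) i k ↔ RS I e (typ e τ) j k) := by
    unfold row
    constructor
    · intro h k
      have h1 := congrFun h k
      beta_reduce at h1
      by_cases h2 : RS I e (typ e τ) i k <;> by_cases h3 : RS I e (typ e τ) j k <;> simp_all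
    · intro h
      funext k
      beta_reduce
      rw [if_congr (h k) rfl rfl]
  rw [h0]
  constructor
  · intro h k h1 h2
    have h3 := h k
    unfold RS at h3
    constructor
    · intro h4
      rcases h3.1 (Or.inl h4) with h5 | h5
      · exact h5
      · exact absurd h5.1.symm h2
    · intro h4
      rcases h3.2 (Or.inl h4) with h5 | h5
      · exact h5
      · exact absurd h5.1.symm h1
  · intro h k
    by_cases hij : i = j
    · rw [hij]
    unfold RS
    by_cases h1 : k = i
    · subst h1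
      have h2 : ¬ I k k := hi k
      have h3 := RS_diag (e := e) hi hs hτ h (Ne.symm hij)
      constructor
      · rintro (h4 | ⟨-, h4⟩)
        · exact absurd h4 h2
        · exact Or.inl (hs _ _ (h3.1 h4))
      · rintro (h4 | ⟨h4, -⟩)
        · exact Or.inr ⟨rfl, h3.2 (hs _ _ h4)⟩
        · exact absurd h4.symm hij
    · by_cases h2 : k = j
      · subst h2
        have h4 : ¬ I k k := hi k
        have h3 := RS_diag (e := e) hi hs hτ (Graph_symm h) hij
        constructor
        · rintro (h5 | ⟨h5, -⟩)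
          · exact Or.inr ⟨rfl, h3.2 (hs _ _ h5)⟩
          · exact absurd h5 hij
        · rintro (h5 | ⟨-, h5⟩)
          · exact absurd h5 h4
          · exact Or.inl (hs _ _ (h3.1 h5))
      · have h3 := h k h1 h2
        constructor
        · rintro (h4 | ⟨h4, -⟩)
          · exact Or.inl (h3.1 h4)
          · exact absurd h4.symm h1
        · rintro (h4 | ⟨h4, -⟩)
          · exact Or.inl (h3.2 h4)
          · exact absurd h4.symm h2

theorem RS_ne {τ : Fin n → Bool} (hτ : Cuts I τ) (i : Fin n) :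
    row (RS I e (typ e τ)) i ≠ 0 ↔ ∃ j, I i j := by
  constructor
  · intro h
    obtain ⟨k, hk⟩ := Function.ne_iff.1 h
    unfold row at hk
    beta_reduce at hk
    have h1 : RS I e (typ e τ) i k := by
      by_contra h2
      rw [if_neg h2] at hk
      exact hk rfl
    rcases h1 with h1 | ⟨-, h1⟩
    · exact ⟨k, h1⟩
    · rw [typ_ne] at h1
      rcases hτ i with h2 | h2
      · rw [h2, cutAll_false] at h1
        obtain ⟨j, -, hj⟩ := h1
        exact ⟨j, hj⟩
      · exact h2.1
  · rintro ⟨j, hj⟩ h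
    have h1 := congrFun h j
    unfold row at h1
    beta_reduce at h1
    rw [if_pos (show RS I e (typ e τ) i j from Or.inl hj)] at h1
    exact one_ne_zero h1

theorem RS_image (hi : ∀ i, ¬ I i i) (hs : ∀ i j, I i j → I j i) {τ : Fin n → Bool}
    (hτ : Cuts I τ) {S : Finset (Fin n)} (hS : Transversal I S) :
    S.image (row (RS I e (typ e τ))) = (rows (RS I e (typ e τ))).erase 0 := by
  classical
  ext v
  unfold rows
  rw [Finset.mem_erase, Finset.mem_image, Finset.mem_image]
  constructor
  · rintro ⟨i, h1, rfl⟩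
    exact ⟨(RS_ne hτ i).2 (hS.1 i h1), i, Finset.mem_univ _, rfl⟩
  · rintro ⟨h1, i, -, rfl⟩
    obtain ⟨s, hs1, hs2⟩ := hS.2.2 i ((RS_ne hτ i).1 h1)
    exact ⟨s, hs1, ((RS_row hi hs hτ i s).2 hs2).symm⟩

theorem RS_inj (hi : ∀ i, ¬ I i i) (hs : ∀ i j, I i j → I j i) {τ : Fin n → Bool}
    (hτ : Cuts I τ) {S : Finset (Fin n)} (hS : Transversal I S) :
    Set.InjOn (row (RS I e (typ e τ))) (S : Set (Fin n)) :=
  fun i h1 j h2 h => hS.2.1 i h1 j h2 ((RS_row hi hs hτ i j).1 h)

end

/-! ### the state sum over the integers -/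

theorem bracket_SS (D : GaussDiagram n) (σ : Fin n → Bool) :
    D.bracket = Pool.Agent.SPT.Lin.SS ℤ (D.gmat σ) σ := by
  unfold GaussDiagram.bracket GaussDiagram.stateSign Pool.Agent.SPT.Lin.SS
  refine Finset.sum_congr rfl fun s _ => ?_
  rw [D.comps_eq, gmat_SM D σ s, Nat.add_sub_cancel_left, T_sum']
  have h1 : ∏ c, T (if s c then (1 : ℤ) else -1) = ∏ c, al ℤ (s c) := by
    refine Finset.prod_congr rfl fun c _ => ?_
    unfold al
    cases s c
    · simp only [Bool.false_eq_true, if_false]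
    · simp only [if_true]
  rw [h1]
  rfl

theorem mono_neg_pow (j : ℕ) : IsMono ((-1 : ℤ[T;T⁻¹]) ^ j) := by
  rcases neg_one_pow_eq_or ℤ[T;T⁻¹] j with h | h
  · rw [h]
    exact ⟨0, Sup_one⟩
  · rw [h]
    exact ⟨0, Sup.neg Sup_one⟩

/-- the numbers of terms -/
theorem norm_le (D : GaussDiagram n) :
    D.normalizedBracket.coeff.support.card ≤ D.bracket.coeff.support.card := by
  unfold GaussDiagram.normalizedBracket
  exact card_mul_mono _ _ ((mono_neg_pow _).mul (IsMono.T _))

theorem le_norm (D : GaussDiagram n) :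
    D.bracket.coeff.support.card ≤ D.normalizedBracket.coeff.support.card := by
  obtain ⟨j, hj⟩ : ∃ j, j = D.writhe.natAbs := ⟨_, rfl⟩
  have h1 : D.bracket = ((-1) ^ j * T (3 * D.writhe)) * D.normalizedBracket := by
    unfold GaussDiagram.normalizedBracket
    rw [← hj]
    have h2 : ((-1 : ℤ[T;T⁻¹]) ^ j) * (-1) ^ j = 1 := by
      rw [← mul_pow, neg_one_mul, neg_neg, one_pow]
    have h3 : (T (3 * D.writhe) : ℤ[T;T⁻¹]) * T (-3 * D.writhe) = 1 := by
      rw [← T_add, neg_mul, add_neg_cancel, T_zero]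
    calc D.bracket = (((-1 : ℤ[T;T⁻¹]) ^ j) * (-1) ^ j) *
          ((T (3 * D.writhe) : ℤ[T;T⁻¹]) * T (-3 * D.writhe)) * D.bracket := by
          rw [h2, h3, one_mul, one_mul]
      _ = _ := by ring
  rw [h1]
  exact card_mul_mono _ _ ((mono_neg_pow _).mul (IsMono.T _))

/-! ### the general form -/

section

variable {n' : ℕ} {I : Fin n → Fin n → Prop} {e : Fin n → Bool}
  {I' : Fin n' → Fin n' → Prop} {e' : Fin n' → Bool}

theorem tw_row (D : GaussDiagram n) (hi : ∀ i, ¬ I i i) (hs : ∀ i j, I i j → I j i)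
    {τ : Fin n → Bool} (hτ : Cuts I τ) (hR : D.Cut (typ e τ) = RS I e (typ e τ)) (i : Fin n) :
    tw (D.gmat (typ e τ)) (typ e τ) (D.gmat (typ e τ) i) = twistBy I e τ i := by
  classical
  have hrow : ∀ c, row (RS I e (typ e τ)) c = D.gmat (typ e τ) c := fun c => by
    rw [← hR]
    exact row_eq D _ c
  unfold tw SPT.signedCount twistBy
  refine Finset.sum_congr ?_ fun c _ => ?_
  · ext c
    rw [Finset.mem_filter, Finset.mem_filter, ← hrow c, ← hrow i, eq_comm,
      RS_row hi hs hτ]
  · unfold typ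
    by_cases h : τ c = e c
    · rw [if_pos h, if_pos (by rw [h]; exact beq_self_eq_true _)]
    · rw [if_neg h, if_neg (by simpa using h)]

theorem gen_rigid (D : GaussDiagram n) (hi : ∀ i, ¬ I i i) (hs : ∀ i j, I i j → I j i)
    {τ : Fin n → Bool} (hτ : Cuts I τ) (hR : D.Cut (typ e τ) = RS I e (typ e τ))
    {S : Finset (Fin n)} (hS : Transversal I S)
    (D' : GaussDiagram n') (hi' : ∀ i, ¬ I' i i) (hs' : ∀ i j, I' i j → I' j i)
    {τ' : Fin n' → Bool} (hτ' : Cuts I' τ') (hR' : D'.Cut (typ e' τ') = RS I' e' (typ e' τ'))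
    {S' : Finset (Fin n')} (hS' : Transversal I' S') (φ : Fin n → Fin n')
    (hφ : Set.BijOn φ (S : Set (Fin n)) (S' : Set (Fin n')))
    (hshape : ∀ U ⊆ S, D.comps (typ e (cutOn τ U)) = D'.comps (typ e' (cutOn τ' (U.image φ))))
    (B : ℕ) (hB : D.normalizedBracket.coeff.support.card ≤ B)
    (hd : ∀ d, ShortFor S (twistBy I e τ) (2 * (B + 2) * (S.card + 1)) d →
      ∑ i ∈ S, d i * (twistBy I' e' τ' (φ i) - twistBy I e τ i) = 0) :
    D'.normalizedBracket.coeff.support.card ≤ B := by
  classical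
  have hrow : ∀ c, row (RS I e (typ e τ)) c = D.gmat (typ e τ) c := fun c => by
    rw [← hR]
    exact row_eq D _ c
  have hrow' : ∀ c, row (RS I' e' (typ e' τ')) c = D'.gmat (typ e' τ') c := fun c => by
    rw [← hR']
    exact row_eq D' _ c
  have hfun : row (RS I e (typ e τ)) = D.gmat (typ e τ) := funext hrow
  have hfun' : row (RS I' e' (typ e' τ')) = D'.gmat (typ e' τ') := funext hrow'
  have hSi : S.image (D.gmat (typ e τ)) =
      (Finset.univ.image (D.gmat (typ e τ))).erase 0 := by
    have h1 := RS_image (e := e) hi hs hτ hS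
    unfold rows at h1
    rw [hfun] at h1
    exact h1
  have hSi' : S'.image (D'.gmat (typ e' τ')) =
      (Finset.univ.image (D'.gmat (typ e' τ'))).erase 0 := by
    have h1 := RS_image (e := e') hi' hs' hτ' hS'
    unfold rows at h1
    rw [hfun'] at h1
    exact h1
  have hinj : Set.InjOn (D.gmat (typ e τ)) (S : Set (Fin n)) := by
    rw [← hfun]
    exact RS_inj hi hs hτ hS
  have hinj' : Set.InjOn (D'.gmat (typ e' τ')) (S' : Set (Fin n')) := by
    rw [← hfun']
    exact RS_inj hi' hs' hτ' hS'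
  have hφS : S.image φ = S' := by
    rw [← Finset.coe_inj, Finset.coe_image]
    exact hφ.image_eq
  have hst : ∀ (m : ℕ) (e : Fin m → Bool) (τ : Fin m → Bool) (U : Finset (Fin m)),
      typ e (cutOn τ U) = st (typ e τ) U := by
    intro m e τ U
    funext c
    unfold cutOn st
    show ((if c ∈ U then τ c else !τ c) == e c) = if c ∈ U then typ e τ c else !typ e τ c
    unfold typ
    by_cases h : c ∈ U
    · rw [if_pos h, if_pos h]
    · rw [if_neg h, if_neg h]
      show ((!τ c) == e c) = !(τ c == e c)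
      cases τ c <;> cases e c <;> rfl
  have hkap : ∀ (m : ℕ) (D : GaussDiagram m) (σ : Fin m → Bool) (U : Finset (Fin m)),
      D.comps (st σ U) = 1 + kap (D.gmat σ) U := by
    intro m D σ U
    rw [D.comps_eq, gmat_SM D σ (st σ U), SM_st]
    rfl
  have hrank : (D.gmat (typ e τ)).rank ≤ S.card := by
    have h1 := rank_kap _ (D.gmat_symm (typ e τ)) S hSi
    omega
  refine (norm_le D').trans ?_
  rw [bracket_SS D' (typ e' τ')]
  refine rigid (D.gmat (typ e τ)) (D.gmat_symm _) (typ e τ) S hSi hinj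
    (D'.gmat (typ e' τ')) (D'.gmat_symm _) (typ e' τ') S' hSi' hinj' φ hφ.injOn hφS ?_ B ?_ ?_
  · intro U hU
    have h1 := hshape U hU
    rw [hst, hst, hkap, hkap] at h1
    omega
  · rw [← bracket_SS D (typ e τ)]
    exact (le_norm D).trans hB
  · intro F hF F' hF' habs
    simp only [tw_row D hi hs hτ hR, tw_row D' hi' hs' hτ' hR'] at habs ⊢
    have h1 := sum_di S F F' hF hF' (twistBy I e τ)
    have h2 := sum_di S F F' hF hF'
      (fun i => twistBy I' e' τ' (φ i) - twistBy I e τ i)
    simp only [Int.cast_id] at h1 h2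
    have h3 := hd (di F F') ⟨fun i => ?_, fun i hiS => ?_, ?_⟩
    · rw [← sub_eq_zero, ← h2, ← h3]
      exact Finset.sum_congr rfl fun i _ => mul_comm _ _
    · unfold di
      by_cases h4 : i ∈ F <;> by_cases h5 : i ∈ F' <;> simp [h4, h5]
    · unfold di
      rw [if_neg fun h => hiS (hF h), if_neg fun h => hiS (hF' h), sub_self]
    · have h4 : ∑ i ∈ S, di F F' i * twistBy I e τ i =
          ∑ i ∈ F, twistBy I e τ i - ∑ i ∈ F', twistBy I e τ i := by
        rw [← h1]
        exact Finset.sum_congr rfl fun i _ => mul_comm _ _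
      rw [h4]
      refine habs.trans_le ?_
      push_cast
      have h5 : ((D.gmat (typ e τ)).rank : ℤ) ≤ S.card := by exact_mod_cast hrank
      have h6 : (0 : ℤ) ≤ 2 * ((B : ℤ) + 2) := by positivity
      exact mul_le_mul_of_nonneg_left (by omega) h6

end

/-! ### knotoids and knots -/

/-- **Rigidity, knotoid diagrams** -/
theorem knotoid_rigid {n' : ℕ} (D : GaussDiagram n) (τ : Fin n → Bool)
    (hτ : Cuts D.Interlaced τ) (S : Finset (Fin n)) (hS : Transversal D.Interlaced S)
    (D' : GaussDiagram n') (τ' : Fin n' → Bool) (hτ' : Cuts D'.Interlaced τ')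
    (S' : Finset (Fin n')) (hS' : Transversal D'.Interlaced S') (φ : Fin n → Fin n')
    (hφ : Set.BijOn φ (S : Set (Fin n)) (S' : Set (Fin n')))
    (hshape : ∀ U ⊆ S, D.comps (fun c => cutOn τ U c == D.sign c) =
      D'.comps (fun c => cutOn τ' (U.image φ) c == D'.sign c))
    (B : ℕ) (hB : D.normalizedBracket.coeff.support.card ≤ B)
    (hd : ∀ d, ShortFor S (twistBy D.Interlaced D.sign τ) (2 * (B + 2) * (S.card + 1)) d →
      ∑ i ∈ S, d i * (twistBy D'.Interlaced D'.sign τ' (φ i) -
        twistBy D.Interlaced D.sign τ i) = 0) :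
    D'.normalizedBracket.coeff.support.card ≤ B :=
  gen_rigid D (Graph_irrefl D) (Graph_int_symm D) hτ rfl hS D' (Graph_irrefl D')
    (Graph_int_symm D') hτ' rfl hS' φ hφ hshape B hB hd

/-- **Rigidity, knot diagrams** -/
theorem knot_rigid {n' : ℕ} (g : GaussJones.Code n) (e τ : Fin n → Bool)
    (hτ : Cuts (GaussJones.Interlaced g) τ) (S : Finset (Fin n))
    (hS : Transversal (GaussJones.Interlaced g) S) (hne : S.Nonempty)
    (g' : GaussJones.Code n') (e' τ' : Fin n' → Bool) (hτ' : Cuts (GaussJones.Interlaced g') τ')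
    (S' : Finset (Fin n')) (hS' : Transversal (GaussJones.Interlaced g') S')
    (φ : Fin n → Fin n') (hφ : Set.BijOn φ (S : Set (Fin n)) (S' : Set (Fin n')))
    (hshape : ∀ U ⊆ S, GaussJones.loops g (cutOn τ U) =
      GaussJones.loops g' (cutOn τ' (U.image φ)))
    (B : ℕ) (hB : (GaussJones.fPoly g e).coeff.support.card ≤ B)
    (hd : ∀ d, ShortFor S (twistBy (GaussJones.Interlaced g) e τ) (2 * (B + 2) * (S.card + 1)) d →
      ∑ i ∈ S, d i * (twistBy (GaussJones.Interlaced g') e' τ' (φ i) -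
        twistBy (GaussJones.Interlaced g) e τ i) = 0) :
    (GaussJones.fPoly g' e').coeff.support.card ≤ B := by
  classical
  obtain ⟨i₀, hi₀⟩ := hne
  have hn : 0 < n := i₀.pos
  have hn' : 0 < n' := (φ i₀).pos
  have hirr : ∀ (m : ℕ) (g : GaussJones.Code m) (i : Fin m), ¬ GaussJones.Interlaced g i i := by
    intro m g i h
    rcases h with h | h <;> exact lt_irrefl _ h.1
  have hsy : ∀ (m : ℕ) (g : GaussJones.Code m) (i j : Fin m), GaussJones.Interlaced g i j →
      GaussJones.Interlaced g j i := fun m g i j h => h.symm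
  have hcut : ∀ (m : ℕ) (g : GaussJones.Code m) (e σ : Fin m → Bool),
      (cutOpen g e).Cut σ = RS (GaussJones.Interlaced g) e σ := by
    intro m g e σ
    have h1 : GaussJones.Cut g e σ = RS (GaussJones.Interlaced g) e σ := rfl
    rw [← h1]
    funext i j
    exact (propext (UNI.cut_closed g e σ i j)).symm
  have hloop : ∀ (m : ℕ) (hm : 0 < m) (g : GaussJones.Code m) (e τ : Fin m → Bool),
      (cutOpen g e).comps (typ e τ) = GaussJones.loops g τ := by
    intro m hm g e τ
    have h1 := loops_closed hm g e (typ e τ)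
    rw [← h1]
    congr 1
    funext i
    show (typ e τ i == e i) = τ i
    unfold typ
    cases τ i <;> cases e i <;> rfl
  rw [f_closed hn] at hB
  rw [f_closed hn']
  exact gen_rigid (cutOpen g e) (hirr n g) (hsy n g) hτ (hcut n g e _) hS (cutOpen g' e')
    (hirr n' g') (hsy n' g') hτ' (hcut n' g' e' _) hS' φ hφ (fun U hU => by
      rw [hloop n hn, hloop n' hn']
      exact hshape U hU) B hB hd

end Pool.Agent.SRX
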